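import Mathlib

/-!
The lower asymptotic constants for the number of binomial coefficients prime to `p`, `p = 5, 7, 11`.
-/

set_option autoImplicit false
open Finset Filter Topology

namespace Pool.Agent.Results.MP_165cab_nt.ThreeConstants

/-- the number of the pairs `(k, j)` with `0 ≤ j ≤ k ≤ n - 1` and `p ∤ C(k, j)` -/
def f (p n : ℕ) : ℕ :=
  ((range n ×ˢ range n).filter fun kj => kj.2 ≤ kj.1 ∧ ¬ p ∣ kj.1.choose kj.2).card

/-- `θ_p = log (p (p + 1) / 2) / log p` -/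
noncomputable def θ (p : ℕ) : ℝ := Real.log (p * (p + 1) / 2) / Real.log p

/-- `λ_p`, the lower limit of `f_p(n) n ^ (-θ_p)` -/
noncomputable def lam (p : ℕ) : ℝ := liminf (fun n : ℕ => (f p n : ℝ) * (n : ℝ) ^ (-θ p)) atTop

/-! ### rows -/

/-- the number of the entries prime to `p` in the `k`-th row -/
def G (p k : ℕ) : ℕ := ((range (k + 1)).filter fun j => ¬ p ∣ k.choose j).card

theorem f_eq (p n : ℕ) : f p n = ∑ k ∈ range n, G p k := by
  unfold f
  rw [card_filter, sum_product]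
  refine sum_congr rfl fun k hk => ?_
  rw [mem_range] at hk
  rw [← card_filter]
  unfold G
  congr 1
  ext j
  simp only [mem_filter, mem_range]
  constructor
  · rintro ⟨_, h1, h2⟩
    exact ⟨by omega, h2⟩
  · rintro ⟨h1, h2⟩
    exact ⟨by omega, by omega, h2⟩

section
variable {p : ℕ} [hp : Fact p.Prime]

theorem not_dvd_iff {a b : ℕ} (ha : a < p) : ¬ p ∣ a.choose b ↔ b ≤ a := by
  constructor
  · intro h
    by_contra hc
    rw [Nat.choose_eq_zero_of_lt (by omega)] at h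
    exact h (dvd_zero _)
  · intro h hd
    have h1 : p ∣ a.factorial := by
      rw [← Nat.choose_mul_factorial_mul_factorial h]
      exact (hd.mul_right _).mul_right _
    have := (hp.out.dvd_factorial).mp h1
    omega

theorem lucas (k j a b : ℕ) (ha : a < p) (hb : b < p) :
    ¬ p ∣ (p * k + a).choose (p * j + b) ↔ b ≤ a ∧ ¬ p ∣ k.choose j := by
  have h := Choose.choose_modEq_choose_mod_mul_choose_div_nat (p := p) (n := p * k + a) (k := p * j + b)
  rw [Nat.mul_add_mod, Nat.mod_eq_of_lt ha, Nat.mul_add_mod, Nat.mod_eq_of_lt hb, Nat.mul_add_div hp.out.pos,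
    Nat.div_eq_of_lt ha, Nat.mul_add_div hp.out.pos, Nat.div_eq_of_lt hb, add_zero, add_zero] at h
  rw [(h.dvd_iff dvd_rfl), hp.out.dvd_mul, not_or, not_dvd_iff ha]

theorem G_rec (k a : ℕ) (ha : a < p) : G p (p * k + a) = (a + 1) * G p k := by
  have h : G p (p * k + a) = ((range (a + 1)) ×ˢ ((range (k + 1)).filter fun j => ¬ p ∣ k.choose j)).card := by
    unfold G
    symm
    refine card_nbij' (fun x => p * x.2 + x.1) (fun j => (j % p, j / p)) ?_ ?_ ?_ ?_
    · rintro ⟨b, j⟩ hx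
      simp only [coe_product, Set.mem_prod, mem_coe, mem_filter, mem_range] at hx
      simp only [mem_coe, mem_filter, mem_range]
      refine ⟨?_, (lucas k j a b ha (by omega)).mpr ⟨by omega, hx.2.2⟩⟩
      have : p * j ≤ p * k := Nat.mul_le_mul_left p (by omega)
      omega
    · intro j hj
      simp only [mem_coe, mem_filter, mem_range] at hj
      simp only [coe_product, Set.mem_prod, mem_coe, mem_filter, mem_range]
      have h1 : p * (j / p) + j % p = j := Nat.div_add_mod j p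
      have h2 := hj.2
      rw [← h1, lucas k (j / p) a (j % p) ha (Nat.mod_lt _ hp.out.pos)] at h2
      refine ⟨by omega, ?_, h2.2⟩
      by_contra hc
      apply h2.2
      rw [Nat.choose_eq_zero_of_lt (by omega)]
      exact dvd_zero _
    · rintro ⟨b, j⟩ hx
      simp only [coe_product, Set.mem_prod, mem_coe, mem_filter, mem_range] at hx
      have hb : b < p := by omega
      simp only [Nat.mul_add_mod, Nat.mod_eq_of_lt hb, Nat.mul_add_div hp.out.pos, Nat.div_eq_of_lt hb, add_zero]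
    · intro j _
      exact Nat.div_add_mod j p
  rw [h, card_product, card_range]
  rfl

theorem G_zero : G p 0 = 1 := by
  unfold G
  have : (range (0 + 1)).filter (fun j => ¬ p ∣ Nat.choose 0 j) = {0} := by
    ext j
    simp only [mem_filter, mem_range, mem_singleton]
    constructor
    · rintro ⟨h, _⟩; omega
    · rintro rfl
      simp [hp.out.one_lt.ne']
  rw [this, card_singleton]

theorem G_digit {d : ℕ} (hd : d < p) : G p d = d + 1 := by
  have := G_rec (p := p) 0 d hd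
  rwa [mul_zero, zero_add, G_zero, mul_one] at this

theorem G_mul (j m r : ℕ) (hr : r < p ^ j) : G p (p ^ j * m + r) = G p m * G p r := by
  induction j generalizing r with
  | zero =>
    obtain rfl : r = 0 := by simpa using hr
    rw [pow_zero, one_mul, add_zero, G_zero, mul_one]
  | succ j ih =>
    have h1 : p * (r / p) + r % p = r := Nat.div_add_mod r p
    have h2 : r / p < p ^ j := by
      rw [Nat.div_lt_iff_lt_mul hp.out.pos]
      rwa [pow_succ] at hr
    have hm : r % p < p := Nat.mod_lt _ hp.out.pos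
    have h3 : p ^ (j + 1) * m + r = p * (p ^ j * m + r / p) + r % p := by
      conv_lhs => rw [← h1]
      ring
    rw [h3, G_rec _ _ hm, ih _ h2]
    conv_rhs => rw [← h1, G_rec _ _ hm]
    ring

end

/-- the triangular number `d (d + 1) / 2` -/
def T (d : ℕ) : ℕ := d * (d + 1) / 2

theorem two_T (d : ℕ) : 2 * T d = d * (d + 1) :=
  Nat.mul_div_cancel' (Nat.even_mul_succ_self d).two_dvd

theorem T_succ (d : ℕ) : T (d + 1) = T d + (d + 1) := by
  have h1 := two_T d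
  have h2 := two_T (d + 1)
  nlinarith

theorem T_cast (d : ℕ) : (T d : ℝ) = d * (d + 1) / 2 := by
  have h1 := two_T d
  have h2 : (2 : ℝ) * T d = d * (d + 1) := by exact_mod_cast h1
  linarith

section
variable {p : ℕ} [hp : Fact p.Prime]

theorem T_pos : 0 < T p := by
  have h1 := two_T p
  have := hp.out.pos
  by_contra hc
  have : T p = 0 := by omega
  rw [this] at h1
  nlinarith

omit hp in
theorem f_succ (n : ℕ) : f p (n + 1) = f p n + G p n := by
  rw [f_eq, f_eq, sum_range_succ]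

omit hp in
theorem f_zero : f p 0 = 0 := by
  rw [f_eq, range_zero, sum_empty]

theorem f_add_digit (N d : ℕ) (hd : d ≤ p) : f p (p * N + d) = f p (p * N) + T d * G p N := by
  induction d with
  | zero => simp [T]
  | succ d ih =>
    rw [← add_assoc, f_succ, ih (by omega), G_rec N d (by omega), T_succ]
    ring

theorem f_mul_p (N : ℕ) : f p (p * N) = T p * f p N := by
  induction N with
  | zero => rw [mul_zero, f_zero, mul_zero]
  | succ N ih =>
    rw [mul_add, mul_one, f_add_digit N p le_rfl, ih, f_succ]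
    ring

theorem f_rec (N d : ℕ) (hd : d ≤ p) : f p (p * N + d) = T p * f p N + T d * G p N := by
  rw [f_add_digit N d hd, f_mul_p]

theorem f_digit {d : ℕ} (hd : d ≤ p) : f p d = T d := by
  have := f_rec (p := p) 0 d hd
  rwa [mul_zero, zero_add, f_zero, mul_zero, zero_add, G_zero, mul_one] at this

theorem f_pow_mul (j m : ℕ) : f p (p ^ j * m) = T p ^ j * f p m := by
  induction j with
  | zero => simp
  | succ j ih => rw [pow_succ', mul_assoc, f_mul_p, ih, pow_succ', mul_assoc]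

theorem f_mul (j m r : ℕ) (hr : r ≤ p ^ j) :
    f p (p ^ j * m + r) = T p ^ j * f p m + G p m * f p r := by
  induction r with
  | zero => rw [add_zero, f_pow_mul, f_zero, mul_zero, add_zero]
  | succ r ih =>
    rw [← add_assoc, f_succ, ih (by omega), f_succ, G_mul j m r (by omega)]
    ring

/-! ### the graph of the limit function -/

/-- the points `(r / p ^ j, f (r) / B ^ j)` -/
inductive Pt (p : ℕ) : ℝ → ℝ → Prop
  | zero : Pt p 0 0
  | one : Pt p 1 1
  | step (d : ℕ) (hd : d < p) (y v : ℝ) : Pt p y v → Pt p ((d + y) / p) ((T d + (d + 1) * v) / T p)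

theorem pt_mem (j r : ℕ) (hr : r ≤ p ^ j) : Pt p ((r : ℝ) / (p : ℝ) ^ j) ((f p r : ℝ) / (T p : ℝ) ^ j) := by
  have hp0 : (p : ℝ) ≠ 0 := by exact_mod_cast hp.out.ne_zero
  have hT0 : (T p : ℝ) ≠ 0 := by exact_mod_cast (T_pos (p := p)).ne'
  induction j generalizing r with
  | zero =>
    have h1 : r = 0 ∨ r = 1 := by
      rw [pow_zero] at hr
      omega
    rcases h1 with rfl | rfl
    · rw [f_zero]
      simpa using Pt.zero
    · rw [f_digit hp.out.one_le]
      simpa [T] using Pt.one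
  | succ j ih =>
    have hpj : 0 < p ^ j := pow_pos hp.out.pos j
    obtain ⟨d, r', hd, hr', rfl⟩ : ∃ d r', d < p ∧ r' ≤ p ^ j ∧ r = p ^ j * d + r' := by
      rcases hr.lt_or_eq with h | h
      · refine ⟨r / p ^ j, r % p ^ j, ?_, (Nat.mod_lt _ hpj).le, (Nat.div_add_mod r (p ^ j)).symm⟩
        rw [Nat.div_lt_iff_lt_mul hpj, mul_comm, ← pow_succ]
        exact h
      · refine ⟨p - 1, p ^ j, ?_, le_rfl, ?_⟩
        · have := hp.out.pos
          omega
        · obtain ⟨q, hq⟩ : ∃ q, p = q + 1 := ⟨p - 1, by have := hp.out.pos; omega⟩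
          rw [h, pow_succ]
          conv_lhs => rw [show p ^ j * p = p ^ j * (p - 1 + 1) by rw [Nat.sub_add_cancel hp.out.one_le]]
          ring
    have h1 := Pt.step (p := p) d hd _ _ (ih r' hr')
    rw [f_mul j d r' hr', f_digit hd.le, G_digit hd]
    convert h1 using 1
    · push_cast
      rw [pow_succ]
      field_simp
    · push_cast
      rw [pow_succ]
      field_simp

theorem Pt.mem {y v : ℝ} (h : Pt p y v) : 0 ≤ y ∧ y ≤ 1 := by
  have hp0 : (0 : ℝ) < p := by exact_mod_cast hp.out.pos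
  induction h with
  | zero => norm_num
  | one => norm_num
  | step d hd y v _ ih =>
    have hd' : (d : ℝ) + 1 ≤ p := by exact_mod_cast hd
    constructor
    · exact div_nonneg (add_nonneg (Nat.cast_nonneg d) ih.1) hp0.le
    · rw [div_le_one hp0]
      linarith [ih.2]

theorem Pt.split {y v : ℝ} (h : Pt p y v) : ∃ d, d < p ∧ ∃ y' v', Pt p y' v' ∧
    y = (d + y') / p ∧ v = (T d + (d + 1) * v') / T p := by
  have hp0 : (p : ℝ) ≠ 0 := by exact_mod_cast hp.out.ne_zero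
  have hT0 : (T p : ℝ) ≠ 0 := by exact_mod_cast (T_pos (p := p)).ne'
  cases h with
  | zero => exact ⟨0, hp.out.pos, 0, 0, Pt.zero, by simp, by simp [T]⟩
  | one =>
    have h1 : ((p - 1 : ℕ) : ℝ) = p - 1 := by
      rw [Nat.cast_sub hp.out.one_le, Nat.cast_one]
    refine ⟨p - 1, by have := hp.out.pos; omega, 1, 1, Pt.one, ?_, ?_⟩
    · rw [h1]
      field_simp
      ring
    · rw [h1, eq_div_iff hT0, T_cast (p - 1), T_cast p, h1]
      ring
  | step d hd y v h => exact ⟨d, hd, y, v, h, rfl, rfl⟩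

/-- the lower bound by a line through `(1/2, 1/4)` -/
def Line (p : ℕ) (s : ℚ) : Prop := ∀ y v, Pt p y v → 1 / 4 + (s : ℝ) * (y - 1 / 2) ≤ v

/-- the lower bound by a line through `(1/2, 1/4)` on the left -/
def LineNeg (p : ℕ) (s : ℚ) : Prop := ∀ y v, Pt p y v → y ≤ 1 / 2 → 1 / 4 + (s : ℝ) * (y - 1 / 2) ≤ v

/-- the lower bound by a line through `(1/2, 1/4)` on the right -/
def LinePos (p : ℕ) (s : ℚ) : Prop := ∀ y v, Pt p y v → 1 / 2 ≤ y → 1 / 4 + (s : ℝ) * (y - 1 / 2) ≤ v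

/-- the check of a line at the digit `d` -/
def lineTest (p : ℕ) (s : ℚ) (d : ℕ) : Bool :=
  decide (T p * (1 / 4 + s * (d / p - 1 / 2)) ≤ T d + (d + 1) * (1 / 4 - s / 2)) &&
  decide (T p * (1 / 4 + s * ((d + 1) / p - 1 / 2)) ≤ T d + (d + 1) * (1 / 4 + s / 2))

theorem qle {a b : ℚ} (h : a ≤ b) : (a : ℝ) ≤ (b : ℝ) := Rat.cast_le.mpr h

theorem line_of_test (s : ℚ) (h0 : 1 / 2 ≤ s) (h1 : s ≤ 3 / 2)
    (h : (List.range p).all (lineTest p s) = true) : Line p s := by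
  have hp0 : (0 : ℝ) < p := by exact_mod_cast hp.out.pos
  have hT0 : (0 : ℝ) < T p := by exact_mod_cast (T_pos (p := p))
  have h0' := qle h0
  have h1' := qle h1
  push_cast at h0' h1'
  intro y v hyv
  induction hyv with
  | zero => linarith
  | one => linarith
  | step d hd y v hy ih =>
    have h2 := (List.all_eq_true.mp h) d (List.mem_range.mpr hd)
    unfold lineTest at h2
    rw [Bool.and_eq_true, decide_eq_true_eq, decide_eq_true_eq] at h2
    obtain ⟨h3, h4⟩ := h2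
    have h3' := qle h3
    have h4' := qle h4
    push_cast at h3' h4'
    obtain ⟨hy0, hy1⟩ := hy.mem
    rw [le_div_iff₀ hT0]
    have e1 : (1 / 4 + (s : ℝ) * ((d + y) / p - 1 / 2)) * T p =
      (1 - y) * (T p * (1 / 4 + s * (d / p - 1 / 2))) + y * (T p * (1 / 4 + s * ((d + 1) / p - 1 / 2))) := by
      field_simp
      ring
    have e2 : (d + 1 : ℝ) * (1 / 4 + s * (y - 1 / 2)) ≤ (d + 1) * v :=
      mul_le_mul_of_nonneg_left ih (by positivity)
    have e3 := mul_le_mul_of_nonneg_left h3' (sub_nonneg.mpr hy1)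
    have e4 := mul_le_mul_of_nonneg_left h4' hy0
    rw [e1]
    nlinarith

/-- the bound `Φ` on the cylinder of `m` at the level `k` -/
def Good (p : ℕ) (Φ : ℝ → ℝ) (k m : ℕ) : Prop :=
  ∀ y v, Pt p y v → (T p : ℝ) ^ k * Φ ((m + y) / (p : ℝ) ^ k) ≤ f p m + G p m * v

theorem good_split (Φ : ℝ → ℝ) (k m : ℕ) (h : ∀ d < p, Good p Φ (k + 1) (p * m + d)) : Good p Φ k m := by
  have hp0 : (p : ℝ) ≠ 0 := by exact_mod_cast hp.out.ne_zero
  have hT0 : (0 : ℝ) < T p := by exact_mod_cast (T_pos (p := p))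
  intro y v hyv
  obtain ⟨d, hd, y', v', h1, rfl, rfl⟩ := hyv.split
  have h2 := h d hd y' v' h1
  rw [f_rec m d hd.le, G_rec m d hd] at h2
  have e1 : (((p * m + d : ℕ) : ℝ) + y') / (p : ℝ) ^ (k + 1) = (m + (d + y') / p) / (p : ℝ) ^ k := by
    push_cast
    field_simp
    ring
  rw [e1] at h2
  have e2 : (f p m : ℝ) + G p m * ((T d + (d + 1) * v') / T p) =
    (T p * f p m + T d * G p m + (d + 1) * G p m * v') / T p := by
    field_simp
    ring
  rw [e2, le_div_iff₀ hT0]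
  push_cast at h2
  calc (T p : ℝ) ^ k * Φ ((m + (d + y') / p) / (p : ℝ) ^ k) * T p
      = (T p : ℝ) ^ (k + 1) * Φ ((m + (d + y') / p) / (p : ℝ) ^ k) := by ring
    _ ≤ _ := h2

/-- the recursive test -/
def chk (p : ℕ) (leaf : ℕ → ℕ → ℕ → ℕ → Bool) : ℕ → ℕ → ℕ → ℕ → ℕ → Bool
  | 0, k, m, a, g => leaf k m a g
  | n + 1, k, m, a, g => leaf k m a g ||
      (List.range p).all fun d => chk p leaf n (k + 1) (p * m + d) (T p * a + T d * g) ((d + 1) * g)

theorem good_of_chk (Φ : ℝ → ℝ) (leaf : ℕ → ℕ → ℕ → ℕ → Bool)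
    (hleaf : ∀ k m, leaf k m (f p m) (G p m) = true → Good p Φ k m) (n : ℕ) :
    ∀ k m, chk p leaf n k m (f p m) (G p m) = true → Good p Φ k m := by
  induction n with
  | zero => intro k m h; exact hleaf k m h
  | succ n ih =>
    intro k m h
    unfold chk at h
    rw [Bool.or_eq_true] at h
    rcases h with h | h
    · exact hleaf k m h
    · refine good_split Φ k m fun d hd => ih _ _ ?_
      have := (List.all_eq_true.mp h) d (List.mem_range.mpr hd)
      rw [f_rec m d hd.le, G_rec m d hd]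
      exact this

/-- the leaf test for the lines -/
def leafA (p : ℕ) (s t : ℚ) (k m a g : ℕ) : Bool :=
  decide ((T p : ℚ) ^ k * (1 / 4 + t * (m / p ^ k - 1 / 2)) ≤ a + g * (1 / 4 - s / 2)) &&
  decide ((T p : ℚ) ^ k * (1 / 4 + t * ((m + 1) / p ^ k - 1 / 2)) ≤ a + g * (1 / 4 + s / 2))

theorem good_of_leafA (s t : ℚ) (hs : Line p s) (k m : ℕ) (h : leafA p s t k m (f p m) (G p m) = true) :
    Good p (fun x => 1 / 4 + t * (x - 1 / 2)) k m := by
  have hp0 : (p : ℝ) ≠ 0 := by exact_mod_cast hp.out.ne_zero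
  unfold leafA at h
  rw [Bool.and_eq_true, decide_eq_true_eq, decide_eq_true_eq] at h
  obtain ⟨h3, h4⟩ := h
  have h3' := qle h3
  have h4' := qle h4
  push_cast at h3' h4'
  intro y v hyv
  obtain ⟨hy0, hy1⟩ := hyv.mem
  have e1 : (T p : ℝ) ^ k * (1 / 4 + (t : ℝ) * ((m + y) / (p : ℝ) ^ k - 1 / 2)) =
      (1 - y) * ((T p : ℝ) ^ k * (1 / 4 + t * (m / (p : ℝ) ^ k - 1 / 2))) +
      y * ((T p : ℝ) ^ k * (1 / 4 + t * ((m + 1) / (p : ℝ) ^ k - 1 / 2))) := by
    field_simp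
    ring
  have e2 : (G p m : ℝ) * (1 / 4 + s * (y - 1 / 2)) ≤ G p m * v :=
    mul_le_mul_of_nonneg_left (hs y v hyv) (by positivity)
  have e3 := mul_le_mul_of_nonneg_left h3' (sub_nonneg.mpr hy1)
  have e4 := mul_le_mul_of_nonneg_left h4' hy0
  show (T p : ℝ) ^ k * (1 / 4 + (t : ℝ) * ((m + y) / (p : ℝ) ^ k - 1 / 2)) ≤ _
  rw [e1]
  nlinarith

theorem digit_step (t : ℝ) (d : ℕ) (hd : d < p) (y v : ℝ) (hyv : Pt p y v)
    (h : Good p (fun x => 1 / 4 + t * (x - 1 / 2)) 1 d) :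
    1 / 4 + t * ((d + y) / p - 1 / 2) ≤ (T d + (d + 1) * v) / T p := by
  have hT0 : (0 : ℝ) < T p := by exact_mod_cast (T_pos (p := p))
  have h1 := h y v hyv
  rw [f_digit hd.le, G_digit hd, pow_one, pow_one] at h1
  push_cast at h1
  rw [le_div_iff₀ hT0, mul_comm]
  exact h1

theorem half_digit (t y v : ℝ) (d : ℕ) (hd : 2 * d + 1 = p) (h : 1 / 4 + t * (y - 1 / 2) ≤ v) :
    1 / 4 + t * ((d + y) / p - 1 / 2) ≤ (T d + (d + 1) * v) / T p := by
  have hT0 : (0 : ℝ) < T p := by exact_mod_cast (T_pos (p := p))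
  have hpd : (p : ℝ) = 2 * d + 1 := by rw [← hd]; push_cast; ring
  have hp0 : (0 : ℝ) < 2 * d + 1 := by positivity
  rw [le_div_iff₀ hT0, T_cast p, T_cast d, hpd]
  have e1 : (1 / 4 + t * ((d + y) / (2 * d + 1) - 1 / 2)) * ((2 * d + 1) * (2 * d + 1 + 1) / 2) =
    (d : ℝ) * (d + 1) / 2 + (d + 1) * (1 / 4 + t * (y - 1 / 2)) := by
    field_simp
    ring
  rw [e1]
  have e2 : ((d : ℝ) + 1) * (1 / 4 + t * (y - 1 / 2)) ≤ (d + 1) * v := mul_le_mul_of_nonneg_left h (by positivity)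
  linarith

theorem lineNeg_of_test (s t : ℚ) (hs : Line p s) (hdd : ℕ) (hh : 2 * hdd + 1 = p) (h0 : 1 / 2 ≤ t) (n : ℕ)
    (h : (List.range hdd).all (fun d => chk p (leafA p s t) n 1 d (T d) (d + 1)) = true) : LineNeg p t := by
  have hp0 : (0 : ℝ) < p := by exact_mod_cast hp.out.pos
  have h0' := qle h0
  push_cast at h0'
  intro y v hyv
  induction hyv with
  | zero => intro _; linarith
  | one => intro h1; norm_num at h1
  | step d hd y v hy ih =>
    intro h1
    rcases lt_trichotomy d hdd with hlt | heq | hgt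
    · refine digit_step t d hd y v hy (good_of_chk _ _ (good_of_leafA s t hs) n 1 d ?_)
      rw [f_digit hd.le, G_digit hd]
      exact (List.all_eq_true.mp h) d (List.mem_range.mpr hlt)
    · refine half_digit t y v d (by omega) (ih ?_)
      rw [div_le_iff₀ hp0] at h1
      have hpd : (p : ℝ) = 2 * d + 1 := by rw [← hh, ← heq]; push_cast; ring
      rw [hpd] at h1
      linarith
    · exfalso
      rw [div_le_iff₀ hp0] at h1
      have hpd : (p : ℝ) = 2 * hdd + 1 := by rw [← hh]; push_cast; ring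
      have hdg : (hdd : ℝ) + 1 ≤ d := by exact_mod_cast hgt
      rw [hpd] at h1
      linarith [hy.mem.1]

theorem linePos_of_test (s t : ℚ) (hs : Line p s) (hdd : ℕ) (hh : 2 * hdd + 1 = p) (h0 : t ≤ 3 / 2) (n : ℕ)
    (h : (List.range p).all (fun d => decide (d ≤ hdd) || chk p (leafA p s t) n 1 d (T d) (d + 1)) = true) :
    LinePos p t := by
  have hp0 : (0 : ℝ) < p := by exact_mod_cast hp.out.pos
  have h0' := qle h0
  push_cast at h0'
  intro y v hyv
  induction hyv with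
  | zero => intro h1; norm_num at h1
  | one => intro _; linarith
  | step d hd y v hy ih =>
    intro h1
    have hpd : (p : ℝ) = 2 * hdd + 1 := by rw [← hh]; push_cast; ring
    rcases lt_trichotomy d hdd with hlt | heq | hgt
    · exfalso
      rw [le_div_iff₀ hp0] at h1
      have hdg : (d : ℝ) + 1 ≤ hdd := by exact_mod_cast hlt
      rw [hpd] at h1
      linarith [hy.mem.2]
    · refine half_digit t y v d (by omega) (ih ?_)
      rw [le_div_iff₀ hp0] at h1
      rw [hpd, ← heq] at h1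
      linarith
    · refine digit_step t d hd y v hy (good_of_chk _ _ (good_of_leafA s t hs) n 1 d ?_)
      rw [f_digit hd.le, G_digit hd]
      have h3 := (List.all_eq_true.mp h) d (List.mem_range.mpr hd)
      rw [Bool.or_eq_true, decide_eq_true_eq] at h3
      exact h3.resolve_left (by omega)

end

/-! ### comparison of powers -/

/-- the test of `R ^ a ≤ Q ^ b` -/
def lePow (R Q : ℚ) (a b : ℕ) : Bool :=
  decide (0 ≤ Q) && Nat.ble (R.num.toNat ^ a * Q.den ^ b) (Q.num.toNat ^ b * R.den ^ a)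

theorem cast_eq {R : ℚ} (hR : 0 ≤ R) : (R : ℝ) = (R.num.toNat : ℝ) / (R.den : ℝ) := by
  have h1 : ((R.num.toNat : ℤ) : ℝ) = (R.num : ℝ) := by
    rw [Int.toNat_of_nonneg (Rat.num_nonneg.mpr hR)]
  rw [Rat.cast_def, ← h1]
  rfl

theorem le_of_lePow {R Q : ℚ} {a b : ℕ} (hR : 0 ≤ R) (h : lePow R Q a b = true) :
    0 ≤ Q ∧ (R : ℝ) ^ a ≤ (Q : ℝ) ^ b := by
  unfold lePow at h
  rw [Bool.and_eq_true, decide_eq_true_eq] at h
  obtain ⟨h1, h2⟩ := h
  refine ⟨h1, ?_⟩
  have h3 := Nat.le_of_ble_eq_true h2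
  have h4 : ((R.num.toNat : ℝ) ^ a * (Q.den : ℝ) ^ b) ≤ (Q.num.toNat : ℝ) ^ b * (R.den : ℝ) ^ a := by
    exact_mod_cast h3
  rw [cast_eq hR, cast_eq h1, div_pow, div_pow, div_le_div_iff₀]
  · exact h4
  · exact pow_pos (by exact_mod_cast R.den_pos) _
  · exact pow_pos (by exact_mod_cast Q.den_pos) _

/-- the test of `R ^ θ ≤ Q` -/
def cmp (ua ub la lb : ℕ) (R Q : ℚ) : Bool :=
  if 1 ≤ R then lePow R Q ua ub else lePow R Q la lb

theorem le_of_pow_le {R Q : ℝ} {a b : ℕ} (hb : 0 < b) (hR : 0 ≤ R) (hQ : 0 ≤ Q) (h : R ^ a ≤ Q ^ b) :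
    R ^ ((a : ℝ) / b) ≤ Q := by
  have hb' : (b : ℝ) ≠ 0 := by exact_mod_cast hb.ne'
  calc R ^ ((a : ℝ) / b) = (R ^ a) ^ ((1 : ℝ) / b) := by
        rw [← Real.rpow_natCast, ← Real.rpow_mul hR]
        congr 1
        ring
    _ ≤ (Q ^ b) ^ ((1 : ℝ) / b) := Real.rpow_le_rpow (pow_nonneg hR _) h (by positivity)
    _ = Q := by
        rw [← Real.rpow_natCast, ← Real.rpow_mul hQ, mul_one_div_cancel hb', Real.rpow_one]

theorem le_of_cmp {t : ℝ} (ht : 0 < t) {ua ub la lb : ℕ} (hub : 0 < ub) (hlb : 0 < lb) (hu : t ≤ ua / ub)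
    (hl : (la : ℝ) / lb ≤ t) {R Q : ℚ} (hR : 0 ≤ R) (h : cmp ua ub la lb R Q = true) : (R : ℝ) ^ t ≤ Q := by
  have hR' : (0 : ℝ) ≤ R := by exact_mod_cast hR
  unfold cmp at h
  split_ifs at h with h1
  · obtain ⟨h2, h3⟩ := le_of_lePow hR h
    have h2' : (0 : ℝ) ≤ Q := by exact_mod_cast h2
    have h1' : (1 : ℝ) ≤ R := by exact_mod_cast h1
    exact (Real.rpow_le_rpow_of_exponent_le h1' hu).trans (le_of_pow_le hub hR' h2' h3)
  · obtain ⟨h2, h3⟩ := le_of_lePow hR h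
    have h2' : (0 : ℝ) ≤ Q := by exact_mod_cast h2
    have h1' : (R : ℝ) ≤ 1 := by exact_mod_cast (not_le.mp h1).le
    rcases hR'.eq_or_lt with h0 | h0
    · rw [← h0, Real.zero_rpow ht.ne']
      exact h2'
    · exact (Real.rpow_le_rpow_of_exponent_ge h0 h1' hl).trans (le_of_pow_le hlb hR' h2' h3)

section
variable {p : ℕ} [hp : Fact p.Prime]

theorem rpow_theta : (p : ℝ) ^ θ p = T p := by
  have h1 : (1 : ℝ) < p := by exact_mod_cast hp.out.one_lt
  have h2 : (0 : ℝ) < (p : ℝ) * (p + 1) / 2 := by positivity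
  rw [T_cast, θ, Real.rpow_def_of_pos (by positivity), mul_div_cancel₀ _ (Real.log_pos h1).ne', Real.exp_log h2]

theorem pow_rpow_theta (k : ℕ) : ((p : ℝ) ^ k) ^ θ p = (T p : ℝ) ^ k := by
  have h1 : (0 : ℝ) ≤ p := Nat.cast_nonneg p
  rw [← Real.rpow_natCast, ← Real.rpow_mul h1, mul_comm, Real.rpow_mul h1, Real.rpow_natCast, rpow_theta]

theorem theta_le {ua ub : ℕ} (hub : 0 < ub) (h : T p ^ ub ≤ p ^ ua) : θ p ≤ ua / ub := by
  have h1 : (1 : ℝ) < p := by exact_mod_cast hp.out.one_lt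
  have hT : (0 : ℝ) < T p := by exact_mod_cast (T_pos (p := p))
  have h2 : ((T p : ℝ)) ^ ub ≤ (p : ℝ) ^ ua := by exact_mod_cast h
  have h3 := Real.log_le_log (pow_pos hT _) h2
  rw [Real.log_pow, Real.log_pow] at h3
  rw [θ, ← T_cast, div_le_div_iff₀ (Real.log_pos h1) (by exact_mod_cast hub)]
  linarith

theorem le_theta {la lb : ℕ} (hlb : 0 < lb) (h : p ^ la ≤ T p ^ lb) : (la : ℝ) / lb ≤ θ p := by
  have h1 : (1 : ℝ) < p := by exact_mod_cast hp.out.one_lt
  have h2 : (p : ℝ) ^ la ≤ ((T p : ℝ)) ^ lb := by exact_mod_cast h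
  have h3 := Real.log_le_log (pow_pos (by linarith) _) h2
  rw [Real.log_pow, Real.log_pow] at h3
  rw [θ, ← T_cast, div_le_div_iff₀ (by exact_mod_cast hlb) (Real.log_pos h1)]
  linarith

/-- the bound `(a₀ / 4) (2 x / (2 m₀ + 1)) ^ θ` -/
noncomputable def Phi (p m0 a0 : ℕ) (x : ℝ) : ℝ := a0 / 4 * (2 * x / (2 * m0 + 1)) ^ θ p

theorem Phi_scale (m0 a0 k : ℕ) {x : ℝ} (hx : 0 ≤ x) :
    (T p : ℝ) ^ k * Phi p m0 a0 (x / (p : ℝ) ^ k) = Phi p m0 a0 x := by
  have hp0 : (0 : ℝ) < p := by exact_mod_cast hp.out.pos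
  have hT0 : (0 : ℝ) < T p := by exact_mod_cast (T_pos (p := p))
  unfold Phi
  have e1 : 2 * (x / (p : ℝ) ^ k) / (2 * m0 + 1) = (2 * x / (2 * m0 + 1)) / (p : ℝ) ^ k := by
    field_simp
  rw [e1, Real.div_rpow (by positivity) (by positivity), pow_rpow_theta]
  field_simp

/-- the leaf test for the power bound -/
def leafM (p c m0 a0 : ℕ) (sm sp : ℚ) (ua ub la lb : ℕ) (k m a g : ℕ) : Bool :=
  cmp ua ub la lb (2 * m * (p ^ c / (p ^ k * (2 * m0 + 1))))
    (4 * (a + g * (1 / 4 - sm / 2)) * ((T p : ℚ) ^ c / ((T p : ℚ) ^ k * a0))) &&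
  (cmp ua ub la lb ((2 * m + 1) * (p ^ c / (p ^ k * (2 * m0 + 1))))
    ((4 * a + g) * ((T p : ℚ) ^ c / ((T p : ℚ) ^ k * a0))) &&
  cmp ua ub la lb ((2 * m + 2) * (p ^ c / (p ^ k * (2 * m0 + 1))))
    (4 * (a + g * (1 / 4 + sp / 2)) * ((T p : ℚ) ^ c / ((T p : ℚ) ^ k * a0))))

theorem Phi_le {m0 a0 : ℕ} (ha0 : 0 < a0) (c k : ℕ) {x W : ℝ} (hx : 0 ≤ x)
    (h : (2 * x * ((p : ℝ) ^ c / ((p : ℝ) ^ k * (2 * m0 + 1)))) ^ θ p ≤
      4 * W * ((T p : ℝ) ^ c / ((T p : ℝ) ^ k * a0))) : Phi p m0 a0 x ≤ W := by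
  have hp0 : (0 : ℝ) < p := by exact_mod_cast hp.out.pos
  have hT0 : (0 : ℝ) < T p := by exact_mod_cast (T_pos (p := p))
  have ha0' : (0 : ℝ) < a0 := by exact_mod_cast ha0
  have e1 : 2 * x * ((p : ℝ) ^ c / ((p : ℝ) ^ k * (2 * m0 + 1))) =
    (2 * x / (2 * m0 + 1)) * (p : ℝ) ^ c / (p : ℝ) ^ k := by
    field_simp
  rw [e1, Real.div_rpow (by positivity) (by positivity), Real.mul_rpow (by positivity) (by positivity),
    pow_rpow_theta, pow_rpow_theta] at h
  unfold Phi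
  have e2 : 4 * W * ((T p : ℝ) ^ c / ((T p : ℝ) ^ k * a0)) = (4 * W / a0) * ((T p : ℝ) ^ c / (T p : ℝ) ^ k) := by
    field_simp
  have e3 : (2 * x / (2 * (m0 : ℝ) + 1)) ^ θ p * (T p : ℝ) ^ c / (T p : ℝ) ^ k =
    (2 * x / (2 * (m0 : ℝ) + 1)) ^ θ p * ((T p : ℝ) ^ c / (T p : ℝ) ^ k) := by
    ring
  rw [e2, e3] at h
  have h1 := le_of_mul_le_mul_right h (by positivity)
  rw [le_div_iff₀ ha0'] at h1
  linarith

omit hp in
theorem Phi_convex (m0 a0 : ℕ) (ht : 1 ≤ θ p) {x y l : ℝ} (hx : 0 ≤ x) (hy : 0 ≤ y) (hl : 0 ≤ l) (hl1 : l ≤ 1) :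
    Phi p m0 a0 ((1 - l) * x + l * y) ≤ (1 - l) * Phi p m0 a0 x + l * Phi p m0 a0 y := by
  have h1 := (convexOn_rpow ht).2 (x := 2 * x / (2 * m0 + 1)) (y := 2 * y / (2 * m0 + 1))
    (by rw [Set.mem_Ici]; positivity) (by rw [Set.mem_Ici]; positivity) (sub_nonneg.mpr hl1) hl (by ring)
  simp only [smul_eq_mul] at h1
  unfold Phi
  have e1 : 2 * ((1 - l) * x + l * y) / (2 * (m0 : ℝ) + 1) =
    (1 - l) * (2 * x / (2 * m0 + 1)) + l * (2 * y / (2 * m0 + 1)) := by
    field_simp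
  rw [e1]
  have h2 := mul_le_mul_of_nonneg_left h1 (show (0 : ℝ) ≤ a0 / 4 by positivity)
  linarith

theorem good_of_leafM {c m0 a0 : ℕ} (ha0 : 0 < a0) {sm sp : ℚ} (hsm : LineNeg p sm) (hsp : LinePos p sp)
    {ua ub la lb : ℕ} (ht : 1 ≤ θ p) (hub : 0 < ub) (hlb : 0 < lb) (hu : θ p ≤ ua / ub)
    (hl : (la : ℝ) / lb ≤ θ p) (k m : ℕ)
    (h : leafM p c m0 a0 sm sp ua ub la lb k m (f p m) (G p m) = true) : Good p (Phi p m0 a0) k m := by
  unfold leafM at h
  rw [Bool.and_eq_true, Bool.and_eq_true] at h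
  obtain ⟨h1, h2, h3⟩ := h
  have ht0 : 0 < θ p := by linarith
  have g1 := le_of_cmp ht0 hub hlb hu hl (by positivity) h1
  have g2 := le_of_cmp ht0 hub hlb hu hl (by positivity) h2
  have g3 := le_of_cmp ht0 hub hlb hu hl (by positivity) h3
  push_cast at g1 g2 g3
  have k1 : Phi p m0 a0 m ≤ f p m + G p m * (1 / 4 - sm / 2) := Phi_le ha0 c k (Nat.cast_nonneg m) g1
  have k2 : Phi p m0 a0 (m + 1 / 2) ≤ f p m + G p m / 4 := by
    refine Phi_le ha0 c k (by positivity) ?_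
    convert g2 using 2
    · ring
    · ring
  have k3 : Phi p m0 a0 (m + 1) ≤ f p m + G p m * (1 / 4 + sp / 2) := by
    refine Phi_le ha0 c k (by positivity) ?_
    convert g3 using 2
    ring
  intro y v hyv
  obtain ⟨hy0, hy1⟩ := hyv.mem
  rw [Phi_scale m0 a0 k (by positivity)]
  have hG : (0 : ℝ) ≤ G p m := Nat.cast_nonneg _
  rcases le_total y (1 / 2) with hy | hy
  · have e1 := Phi_convex (p := p) m0 a0 ht (x := m) (y := m + 1 / 2) (l := 2 * y) (by positivity) (by positivity)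
      (by linarith) (by linarith)
    rw [show (1 - 2 * y) * (m : ℝ) + 2 * y * (m + 1 / 2) = m + y by ring] at e1
    have e2 := mul_le_mul_of_nonneg_left (hsm y v hyv hy) hG
    have e3 := mul_le_mul_of_nonneg_left k1 (show 0 ≤ 1 - 2 * y by linarith)
    have e4 := mul_le_mul_of_nonneg_left k2 (show 0 ≤ 2 * y by linarith)
    nlinarith
  · have e1 := Phi_convex (p := p) m0 a0 ht (x := m + 1 / 2) (y := m + 1) (l := 2 * y - 1) (by positivity) (by positivity)
      (by linarith) (by linarith)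
    rw [show (1 - (2 * y - 1)) * ((m : ℝ) + 1 / 2) + (2 * y - 1) * (m + 1) = m + y by ring] at e1
    have e2 := mul_le_mul_of_nonneg_left (hsp y v hyv hy) hG
    have e3 := mul_le_mul_of_nonneg_left k2 (show 0 ≤ 1 - (2 * y - 1) by linarith)
    have e4 := mul_le_mul_of_nonneg_left k3 (show 0 ≤ 2 * y - 1 by linarith)
    nlinarith

theorem lower_bound {m0 a0 : ℕ} (hg : ∀ d, 1 ≤ d → d < p → Good p (Phi p m0 a0) 1 d) (n : ℕ) (hn : 1 ≤ n) :
    Phi p m0 a0 n ≤ f p n := by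
  have hT0 : (0 : ℝ) < T p := by exact_mod_cast (T_pos (p := p))
  have hp0 : (0 : ℝ) < p := by exact_mod_cast hp.out.pos
  set j := Nat.log p n with hj
  have hpj : 0 < p ^ j := pow_pos hp.out.pos j
  have h1 : p ^ j ≤ n := Nat.pow_log_le_self p (by omega)
  have h2 : n < p ^ (j + 1) := Nat.lt_pow_succ_log_self hp.out.one_lt n
  have h3 : 1 ≤ n / p ^ j := (Nat.one_le_div_iff hpj).mpr h1
  have h4 : n / p ^ j < p := by
    rw [Nat.div_lt_iff_lt_mul hpj, mul_comm, ← pow_succ]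
    exact h2
  have h5 : p ^ j * (n / p ^ j) + n % p ^ j = n := Nat.div_add_mod n (p ^ j)
  have h6 : n % p ^ j ≤ p ^ j := (Nat.mod_lt _ hpj).le
  set d := n / p ^ j
  set r := n % p ^ j
  have h7 := hg d h3 h4 _ _ (pt_mem j r h6)
  have h8 := Phi_scale (p := p) m0 a0 1 (x := d + (r : ℝ) / (p : ℝ) ^ j) (by positivity)
  have h9 := Phi_scale (p := p) m0 a0 j (x := n) (by positivity)
  have e1 : (n : ℝ) / (p : ℝ) ^ j = d + (r : ℝ) / (p : ℝ) ^ j := by
    have : (n : ℝ) = (p : ℝ) ^ j * d + r := by exact_mod_cast h5.symm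
    rw [this]
    field_simp
  have e2 : (f p n : ℝ) = (T p : ℝ) ^ j * (f p d + G p d * (f p r / (T p : ℝ) ^ j)) := by
    have : f p n = T p ^ j * f p d + G p d * f p r := by
      conv_lhs => rw [← h5]
      exact f_mul j d r h6
    rw [this]
    push_cast
    field_simp
  rw [← h9, e1, e2, ← h8]
  exact mul_le_mul_of_nonneg_left h7 (by positivity)

/-- the numbers `p ^ k m₀ + (p ^ k - 1) / 2` -/
def nn (p m0 : ℕ) : ℕ → ℕ
  | 0 => m0
  | k + 1 => p * nn p m0 k + p / 2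

omit hp in
theorem nn_eq (hodd : 2 * (p / 2) + 1 = p) (m0 k : ℕ) : 2 * nn p m0 k + 1 = p ^ k * (2 * m0 + 1) := by
  induction k with
  | zero => simp [nn]
  | succ k ih =>
    rw [nn, pow_succ']
    calc 2 * (p * nn p m0 k + p / 2) + 1 = p * (2 * nn p m0 k) + (2 * (p / 2) + 1) := by ring
      _ = p * (2 * nn p m0 k + 1) := by rw [hodd]; ring
      _ = _ := by rw [ih]; ring

theorem f_nn (hodd : 2 * (p / 2) + 1 = p) {m0 a0 : ℕ} (h0 : 4 * f p m0 + G p m0 = a0) (k : ℕ) :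
    4 * f p (nn p m0 k) + G p (nn p m0 k) = T p ^ k * a0 := by
  induction k with
  | zero => simpa [nn] using h0
  | succ k ih =>
    have hlt : p / 2 < p := by omega
    rw [nn, f_rec _ _ hlt.le, G_rec _ _ hlt, pow_succ', mul_assoc, ← ih]
    have e1 := two_T (p / 2)
    have e2 := two_T p
    set h := p / 2 with hh
    have e3 : T p = (2 * h + 1) * (h + 1) := by
      rw [← hodd] at e2 ⊢
      nlinarith
    rw [e3]
    have e4 : 4 * T h = 2 * (h * (h + 1)) := by omega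
    calc 4 * ((2 * h + 1) * (h + 1) * f p (nn p m0 k) + T h * G p (nn p m0 k)) + (h + 1) * G p (nn p m0 k)
        = 4 * ((2 * h + 1) * (h + 1) * f p (nn p m0 k)) + (4 * T h) * G p (nn p m0 k) +
          (h + 1) * G p (nn p m0 k) := by ring
      _ = _ := by rw [e4]; ring

theorem lam_eq (hodd : 2 * (p / 2) + 1 = p) {m0 a0 : ℕ} (h0 : 4 * f p m0 + G p m0 = a0)
    (hlow : ∀ n : ℕ, 1 ≤ n → Phi p m0 a0 n ≤ f p n) :
    lam p = a0 / 4 * (2 / (2 * m0 + 1)) ^ θ p := by
  have hT0 : (0 : ℝ) < T p := by exact_mod_cast (T_pos (p := p))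
  have hp0 : (0 : ℝ) < p := by exact_mod_cast hp.out.pos
  have hp1 : (1 : ℝ) < p := by exact_mod_cast hp.out.one_lt
  set u : ℕ → ℝ := fun n => (f p n : ℝ) * (n : ℝ) ^ (-θ p) with hu
  set L : ℝ := a0 / 4 * (2 / (2 * m0 + 1)) ^ θ p with hL
  have hlow' : ∀ n : ℕ, 1 ≤ n → L ≤ u n := by
    intro n hn
    have hn0 : (0 : ℝ) < n := by exact_mod_cast hn
    have h1 := hlow n hn
    unfold Phi at h1
    rw [show 2 * (n : ℝ) / (2 * m0 + 1) = (2 / (2 * m0 + 1)) * n by ring,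
      Real.mul_rpow (by positivity) hn0.le] at h1
    have h2 := mul_le_mul_of_nonneg_right h1 (Real.rpow_nonneg hn0.le (-θ p))
    have h3 : (n : ℝ) ^ θ p * (n : ℝ) ^ (-θ p) = 1 := by
      rw [← Real.rpow_add hn0, add_neg_cancel, Real.rpow_zero]
    calc L = a0 / 4 * (2 / (2 * m0 + 1)) ^ θ p * ((n : ℝ) ^ θ p * (n : ℝ) ^ (-θ p)) := by rw [h3, mul_one]
      _ = a0 / 4 * ((2 / (2 * m0 + 1)) ^ θ p * (n : ℝ) ^ θ p) * (n : ℝ) ^ (-θ p) := by ring
      _ ≤ u n := h2
  have hratio : ∀ k, (nn p m0 k : ℝ) / (p : ℝ) ^ k = (2 * m0 + 1) / 2 - 1 / 2 * (1 / (p : ℝ)) ^ k := by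
    intro k
    have h1 : (2 : ℝ) * nn p m0 k + 1 = (p : ℝ) ^ k * (2 * m0 + 1) := by exact_mod_cast nn_eq hodd m0 k
    have h2 : (nn p m0 k : ℝ) = ((p : ℝ) ^ k * (2 * m0 + 1) - 1) / 2 := by linarith
    rw [h2, div_pow, one_pow]
    field_simp
  have hlim : Tendsto (fun k => (nn p m0 k : ℝ) / (p : ℝ) ^ k) atTop (𝓝 ((2 * m0 + 1) / 2)) := by
    have h1 : Tendsto (fun k : ℕ => (1 / (p : ℝ)) ^ k) atTop (𝓝 0) :=
      tendsto_pow_atTop_nhds_zero_of_lt_one (by positivity) (by rw [div_lt_one hp0]; exact hp1)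
    have h2 := (h1.const_mul (1 / 2)).const_sub ((2 * (m0 : ℝ) + 1) / 2)
    rw [mul_zero, sub_zero] at h2
    exact h2.congr fun k => (hratio k).symm
  have hlim2 : Tendsto (fun k => (a0 : ℝ) / 4 * ((nn p m0 k : ℝ) / (p : ℝ) ^ k) ^ (-θ p)) atTop (𝓝 L) := by
    have h1 : (2 * (m0 : ℝ) + 1) / 2 ≠ 0 := by positivity
    have h2 := (hlim.rpow_const (p := -θ p) (Or.inl h1)).const_mul ((a0 : ℝ) / 4)
    have h3 : ((2 * (m0 : ℝ) + 1) / 2) ^ (-θ p) = (2 / (2 * m0 + 1)) ^ θ p := by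
      rw [Real.rpow_neg (by positivity), ← Real.inv_rpow (by positivity), inv_div]
    rw [h3] at h2
    exact h2
  have hnn : Tendsto (fun k => nn p m0 k) atTop atTop := by
    refine tendsto_atTop_atTop_of_monotone' ?_ ?_
    · refine monotone_nat_of_le_succ fun k => ?_
      have : nn p m0 (k + 1) = p * nn p m0 k + p / 2 := rfl
      have h2 := Nat.le_mul_of_pos_left (nn p m0 k) hp.out.pos
      omega
    · rw [not_bddAbove_iff]
      intro N
      obtain ⟨k, hk⟩ : ∃ k, 2 * N + 2 < p ^ k := pow_unbounded_of_one_lt (2 * N + 2) hp.out.one_lt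
      refine ⟨nn p m0 k, ⟨k, rfl⟩, ?_⟩
      have h1 := nn_eq hodd m0 k
      have h2 : p ^ k ≤ p ^ k * (2 * m0 + 1) := Nat.le_mul_of_pos_right _ (by omega)
      omega
  have hup : ∀ k, 1 ≤ nn p m0 k → u (nn p m0 k) ≤ (a0 : ℝ) / 4 * ((nn p m0 k : ℝ) / (p : ℝ) ^ k) ^ (-θ p) := by
    intro k hk
    have hk0 : (0 : ℝ) < nn p m0 k := by exact_mod_cast hk
    have h1 : (4 : ℝ) * f p (nn p m0 k) + G p (nn p m0 k) = (T p : ℝ) ^ k * a0 := by
      exact_mod_cast f_nn hodd h0 k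
    have h2 : (f p (nn p m0 k) : ℝ) ≤ (T p : ℝ) ^ k * a0 / 4 := by
      have : (0 : ℝ) ≤ G p (nn p m0 k) := Nat.cast_nonneg _
      linarith
    have h3 : ((p : ℝ) ^ k) ^ (-θ p) = ((T p : ℝ) ^ k)⁻¹ := by
      rw [Real.rpow_neg (by positivity), pow_rpow_theta]
    rw [Real.div_rpow hk0.le (by positivity), h3, div_inv_eq_mul]
    calc u (nn p m0 k) ≤ (T p : ℝ) ^ k * a0 / 4 * (nn p m0 k : ℝ) ^ (-θ p) :=
          mul_le_mul_of_nonneg_right h2 (Real.rpow_nonneg hk0.le _)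
      _ = _ := by ring
  have hfreq : ∀ ε > 0, ∃ᶠ n in atTop, u n ≤ L + ε := by
    intro ε hε
    have h1 : ∀ᶠ k in atTop, u (nn p m0 k) ≤ L + ε := by
      filter_upwards [hlim2.eventually_le_const (show L < L + ε by linarith), hnn.eventually_ge_atTop 1] with k h1 h2
      exact (hup k h2).trans h1
    exact hnn.frequently h1.frequently
  apply le_antisymm
  · refine le_of_forall_pos_le_add fun ε hε => ?_
    refine liminf_le_of_frequently_le (hfreq ε hε) ?_
    exact isBoundedUnder_of_eventually_ge (a := L) (eventually_atTop.mpr ⟨1, hlow'⟩)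
  · refine le_liminf_of_le ?_ (eventually_atTop.mpr ⟨1, hlow'⟩)
    exact IsCobounded.of_frequently_le (hfreq 1 one_pos)

end

/-! ### the three primes -/

theorem good_all {p : ℕ} [hp : Fact p.Prime] {c m0 a0 : ℕ} (ha0 : 0 < a0) {sm sp : ℚ} (hsm : LineNeg p sm)
    (hsp : LinePos p sp) {ua ub la lb : ℕ} (ht : 1 ≤ θ p) (hub : 0 < ub) (hlb : 0 < lb) (hu : θ p ≤ ua / ub)
    (hl : (la : ℝ) / lb ≤ θ p) (n : ℕ)
    (h : (List.range p).all (fun d => decide (d = 0) ||
      chk p (leafM p c m0 a0 sm sp ua ub la lb) n 1 d (T d) (d + 1)) = true) (d : ℕ) (hd1 : 1 ≤ d) (hd : d < p) :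
    Good p (Phi p m0 a0) 1 d := by
  refine good_of_chk _ _ (good_of_leafM (c := c) ha0 hsm hsp ht hub hlb hu hl) n 1 d ?_
  rw [f_digit hd.le, G_digit hd]
  have h3 := (List.all_eq_true.mp h) d (List.mem_range.mpr hd)
  rw [Bool.or_eq_true, decide_eq_true_eq] at h3
  exact h3.resolve_left (by omega)

instance fact5 : Fact (Nat.Prime 5) := ⟨by norm_num⟩
instance fact7 : Fact (Nat.Prime 7) := ⟨by norm_num⟩
instance fact11 : Fact (Nat.Prime 11) := ⟨by norm_num⟩

theorem line5 : Line 5 (9 / 10) := line_of_test _ (by norm_num) (by norm_num) (by decide +kernel)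
theorem line7 : Line 7 (13 / 14) := line_of_test _ (by norm_num) (by norm_num) (by decide +kernel)
theorem line11 : Line 11 (24 / 25) := line_of_test _ (by norm_num) (by norm_num) (by decide +kernel)

theorem neg5 : LineNeg 5 (77 / 100) :=
  lineNeg_of_test (9 / 10) (77 / 100) line5 2 (by norm_num) (by norm_num) 3 (by decide +kernel)
theorem neg7 : LineNeg 7 (83 / 100) :=
  lineNeg_of_test (13 / 14) (83 / 100) line7 3 (by norm_num) (by norm_num) 3 (by decide +kernel)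
theorem neg11 : LineNeg 11 (24 / 25) := fun y v h _ => line11 y v h

theorem pos5 : LinePos 5 (9 / 10) := fun y v h _ => line5 y v h
theorem pos7 : LinePos 7 (13 / 14) := fun y v h _ => line7 y v h
theorem pos11 : LinePos 11 (103 / 100) :=
  linePos_of_test (24 / 25) (103 / 100) line11 5 (by norm_num) (by norm_num) 3 (by decide +kernel)

theorem u5 : θ 5 ≤ (32 : ℕ) / (19 : ℕ) := theta_le (by norm_num) (by decide +kernel)
theorem l5 : ((5 : ℕ) : ℝ) / (3 : ℕ) ≤ θ 5 := le_theta (by norm_num) (by decide +kernel)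
theorem u7 : θ 7 ≤ (12 : ℕ) / (7 : ℕ) := theta_le (by norm_num) (by decide +kernel)
theorem l7 : ((125 : ℕ) : ℝ) / (73 : ℕ) ≤ θ 7 := le_theta (by norm_num) (by decide +kernel)
theorem u11 : θ 11 ≤ (7 : ℕ) / (4 : ℕ) := theta_le (by norm_num) (by decide +kernel)
theorem l11 : ((152 : ℕ) : ℝ) / (87 : ℕ) ≤ θ 11 := le_theta (by norm_num) (by decide +kernel)

theorem one5 : 1 ≤ θ 5 := le_trans (by norm_num) l5
theorem one7 : 1 ≤ θ 7 := le_trans (by norm_num) l7
theorem one11 : 1 ≤ θ 11 := le_trans (by norm_num) l11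

theorem good5 (d : ℕ) (h1 : 1 ≤ d) (h2 : d < 5) : Good 5 (Phi 5 1 6) 1 d :=
  good_all (c := 1) (by norm_num) neg5 pos5 one5 (by norm_num) (by norm_num) u5 l5 3 (by decide +kernel) d h1 h2

theorem good7 (d : ℕ) (h1 : 1 ≤ d) (h2 : d < 7) : Good 7 (Phi 7 1 6) 1 d :=
  good_all (c := 1) (by norm_num) neg7 pos7 one7 (by norm_num) (by norm_num) u7 l7 3 (by decide +kernel) d h1 h2

theorem good11 (d : ℕ) (h1 : 1 ≤ d) (h2 : d < 11) : Good 11 (Phi 11 15 354) 1 d :=
  good_all (c := 2) (by norm_num) neg11 pos11 one11 (by norm_num) (by norm_num) u11 l11 3 (by decide +kernel) d h1 h2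

theorem start_one {p : ℕ} [hp : Fact p.Prime] : 4 * f p 1 + G p 1 = 6 := by
  rw [f_digit hp.out.one_le, G_digit hp.out.one_lt]
  decide

theorem start_fifteen : 4 * f 11 15 + G 11 15 = 354 := by
  have h1 : f 11 15 = T 11 * f 11 1 + T 4 * G 11 1 := f_rec (p := 11) 1 4 (by norm_num)
  have h2 : G 11 15 = (4 + 1) * G 11 1 := G_rec (p := 11) 1 4 (by norm_num)
  rw [h1, h2, f_digit (by norm_num), G_digit (by norm_num)]
  decide

theorem lam5 : lam 5 = (3 / 2 : ℝ) ^ (1 - θ 5) := by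
  rw [lam_eq (m0 := 1) (a0 := 6) (by norm_num) start_one (lower_bound good5),
    Real.rpow_sub (by norm_num), Real.rpow_one]
  have h : (2 / (2 * ((1 : ℕ) : ℝ) + 1)) = (3 / 2 : ℝ)⁻¹ := by norm_num
  rw [h, Real.inv_rpow (by norm_num)]
  push_cast
  ring

theorem lam7 : lam 7 = (3 / 2 : ℝ) ^ (1 - θ 7) := by
  rw [lam_eq (m0 := 1) (a0 := 6) (by norm_num) start_one (lower_bound good7),
    Real.rpow_sub (by norm_num), Real.rpow_one]
  have h : (2 / (2 * ((1 : ℕ) : ℝ) + 1)) = (3 / 2 : ℝ)⁻¹ := by norm_num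
  rw [h, Real.inv_rpow (by norm_num)]
  push_cast
  ring

theorem lam11 : lam 11 = 59 / 44 * (22 / 31 : ℝ) ^ θ 11 := by
  rw [lam_eq (m0 := 15) (a0 := 354) (by norm_num) start_fifteen (lower_bound good11)]
  have h : (22 / 31 : ℝ) = (11 : ℕ) * (2 / (2 * ((15 : ℕ) : ℝ) + 1)) := by norm_num
  rw [h, Real.mul_rpow (by norm_num) (by norm_num), rpow_theta]
  have hT : ((T 11 : ℕ) : ℝ) = 66 := by
    rw [show T 11 = 66 by decide]
    norm_num
  rw [hT]
  push_cast
  ring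

/-- **Q1**: the three equalities all hold. -/
theorem result :
    lam 5 = (3 / 2 : ℝ) ^ (1 - θ 5) ∧
    lam 7 = (3 / 2 : ℝ) ^ (1 - θ 7) ∧
    lam 11 = 59 / 44 * (22 / 31 : ℝ) ^ θ 11 :=
  ⟨lam5, lam7, lam11⟩

end Pool.Agent.Results.MP_165cab_nt.ThreeConstants
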